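import Pool.Agent.Helper54.FP.Inst

/-!
# FP-23: Bertini-Noether (irreducibility under specialization)
-/

set_option autoImplicit false

namespace Pool.Agent.Helper54.FP

open Polynomial

noncomputable section

/-! ### Degrees in the inner variable -/

theorem bn_coeff_swap {A : Type*} [CommRing A] (f : Polynomial (Polynomial A)) (i j : ℕ) :
    ((Polynomial.Bivariate.swap f).coeff j).coeff i = (f.coeff i).coeff j := by
  induction f using Polynomial.induction_on' with
  | add p q hp hq => simp only [map_add, coeff_add, hp, hq]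
  | monomial n a =>
    induction a using Polynomial.induction_on' with
    | add p q hp hq => simp only [map_add, coeff_add, hp, hq]
    | monomial m b =>
      rw [Polynomial.Bivariate.swap_monomial_monomial]
      simp only [coeff_monomial]
      by_cases h1 : m = j <;> by_cases h2 : n = i <;> simp [h1, h2, coeff_monomial]

theorem bn_degX {A : Type*} [CommRing A] [IsDomain A] {f g h : Polynomial (Polynomial A)}
    (hfg : f * g = h) (hh : h ≠ 0) (D : ℕ) (hD : ∀ i j, D < j → (h.coeff i).coeff j = 0) :
    ∀ i j, D < j → (f.coeff i).coeff j = 0 := by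
  intro i j hj
  have hf : f ≠ 0 := by
    rintro rfl
    rw [zero_mul] at hfg
    exact hh hfg.symm
  have hg : g ≠ 0 := by
    rintro rfl
    rw [mul_zero] at hfg
    exact hh hfg.symm
  have hf' : Polynomial.Bivariate.swap f ≠ 0 := by
    intro h0
    exact hf ((map_eq_zero_iff _ (Polynomial.Bivariate.swap (R := A)).injective).1 h0)
  have hg' : Polynomial.Bivariate.swap g ≠ 0 := by
    intro h0
    exact hg ((map_eq_zero_iff _ (Polynomial.Bivariate.swap (R := A)).injective).1 h0)
  have h1 : (Polynomial.Bivariate.swap h).natDegree ≤ D := by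
    rw [natDegree_le_iff_coeff_eq_zero]
    intro N hN
    ext i
    rw [bn_coeff_swap, coeff_zero]
    exact hD i N hN
  have h2 : (Polynomial.Bivariate.swap f).natDegree ≤ D := by
    rw [← hfg, map_mul, natDegree_mul hf' hg'] at h1
    omega
  rw [← bn_coeff_swap, coeff_eq_zero_of_natDegree_lt (lt_of_le_of_lt h2 hj), coeff_zero]

/-! ### The generic monic polynomial -/

/-- generic polynomial, monic of degree `m` -/
def bnF {A : Type*} [CommRing A] (N D m : ℕ) (a : Fin N × Fin (D + 1) → A) :
    Polynomial (Polynomial A) :=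
  X ^ m + ∑ i : Fin N, if i.val < m then
    C (∑ j : Fin (D + 1), C (a (i, j)) * X ^ j.val) * X ^ i.val else 0

theorem bnF_map {A B : Type*} [CommRing A] [CommRing B] (φ : A →+* B) (N D m : ℕ)
    (a : Fin N × Fin (D + 1) → A) :
    (bnF N D m a).map (Polynomial.mapRingHom φ) = bnF N D m (fun x => φ (a x)) := by
  unfold bnF
  rw [Polynomial.map_add, Polynomial.map_pow, Polynomial.map_X, Polynomial.map_sum]
  congr 1
  refine Finset.sum_congr rfl fun i _ => ?_
  split_ifs with h
  · rw [Polynomial.map_mul, Polynomial.map_pow, Polynomial.map_X, Polynomial.map_C]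
    congr 2
    rw [coe_mapRingHom, Polynomial.map_sum]
    refine Finset.sum_congr rfl fun j _ => ?_
    rw [Polynomial.map_mul, Polynomial.map_pow, Polynomial.map_X, Polynomial.map_C]
  · exact Polynomial.map_zero _

theorem bnF_degree_lt {A : Type*} [CommRing A] (N D m : ℕ) (a : Fin N × Fin (D + 1) → A) :
    (∑ i : Fin N, if i.val < m then
      C (∑ j : Fin (D + 1), C (a (i, j)) * X ^ j.val) * X ^ i.val else 0 :
      Polynomial (Polynomial A)).degree < m := by
  refine (degree_sum_le _ _).trans_lt ?_
  refine (Finset.sup_lt_iff (WithBot.bot_lt_coe m)).2 ?_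
  intro i _
  split_ifs with h
  · refine (degree_C_mul_X_pow_le _ _).trans_lt ?_
    exact WithBot.coe_lt_coe.2 h
  · rw [degree_zero]
    exact WithBot.bot_lt_coe m

theorem bnF_monic {A : Type*} [CommRing A] (N D m : ℕ) (a : Fin N × Fin (D + 1) → A) :
    (bnF N D m a).Monic := monic_X_pow_add (bnF_degree_lt N D m a)

theorem bnF_natDegree {A : Type*} [CommRing A] [Nontrivial A] (N D m : ℕ)
    (a : Fin N × Fin (D + 1) → A) : (bnF N D m a).natDegree = m := by
  unfold bnF
  rw [natDegree_add_eq_left_of_degree_lt, natDegree_X_pow]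
  rw [degree_X_pow]
  exact bnF_degree_lt N D m a

theorem bnF_cover {A : Type*} [CommRing A] (N D : ℕ) (g : Polynomial (Polynomial A))
    (hg : g.Monic) (hN : g.natDegree ≤ N) (hD : ∀ i j, D < j → (g.coeff i).coeff j = 0) :
    g = bnF N D g.natDegree (fun x => (g.coeff x.1.val).coeff x.2.val) := by
  conv_lhs => rw [hg.as_sum]
  unfold bnF
  congr 1
  have h1 : ∀ i : ℕ, (∑ j : Fin (D + 1), C ((g.coeff i).coeff j.val) * X ^ j.val) = g.coeff i := by
    intro i
    rw [Fin.sum_univ_eq_sum_range (fun j => C ((g.coeff i).coeff j) * X ^ j) (D + 1)]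
    refine (as_sum_range_C_mul_X_pow' _ ?_).symm
    rw [Nat.lt_succ_iff, natDegree_le_iff_coeff_eq_zero]
    exact fun j hj => hD i j hj
  have h2 : ∀ i : Fin N, (if i.val < g.natDegree then
      C (∑ j : Fin (D + 1), C ((g.coeff i.val).coeff j.val) * X ^ j.val) * X ^ i.val else 0) =
      (if i.val < g.natDegree then C (g.coeff i.val) * X ^ i.val else 0) := by
    intro i
    rw [h1]
  rw [Finset.sum_congr rfl fun i _ => h2 i,
    Fin.sum_univ_eq_sum_range (fun i => if i < g.natDegree then C (g.coeff i) * X ^ i else 0) N,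
    ← Finset.sum_filter]
  refine Finset.sum_congr ?_ fun _ _ => rfl
  ext i
  simp only [Finset.mem_range, Finset.mem_filter]
  omega

/-! ### The equations -/

/-- the equation expressing that a coefficient of the product of two generic polynomials is the
coefficient of `r` -/
def bnP {A : Type*} [CommRing A] (N D m₁ m₂ : ℕ) (r : Polynomial (Polynomial A)) (ij : ℕ × ℕ) :
    MvPolynomial (Bool × (Fin N × Fin (D + 1))) A :=
  ((bnF N D m₁ (fun x => (MvPolynomial.X (false, x) : MvPolynomial _ A)) *
    bnF N D m₂ (fun x => (MvPolynomial.X (true, x) : MvPolynomial _ A))).coeff ij.1).coeff ij.2 -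
    MvPolynomial.C ((r.coeff ij.1).coeff ij.2)

theorem bnP_hom {A B : Type*} [CommRing A] [CommRing B] (N D m₁ m₂ : ℕ)
    (r : Polynomial (Polynomial A)) (ij : ℕ × ℕ)
    (φ : MvPolynomial (Bool × (Fin N × Fin (D + 1))) A →+* B) :
    φ (bnP N D m₁ m₂ r ij) =
      ((bnF N D m₁ (fun x => φ (MvPolynomial.X (false, x))) *
        bnF N D m₂ (fun x => φ (MvPolynomial.X (true, x)))).coeff ij.1).coeff ij.2 -
      φ (MvPolynomial.C ((r.coeff ij.1).coeff ij.2)) := by
  unfold bnP
  rw [map_sub, ← bnF_map φ, ← bnF_map φ, ← Polynomial.map_mul, Polynomial.coeff_map,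
    coe_mapRingHom, Polynomial.coeff_map]

theorem bn_certificate {K : Type} [Field K] [IsAlgClosed K] (r : Polynomial (Polynomial K))
    (hm : r.Monic) (hr : Irreducible r) (N D m₁ m₂ : ℕ) (h1 : 0 < m₁) (h2 : 0 < m₂) :
    ∃ Q : (ℕ × ℕ) →₀ MvPolynomial (Bool × (Fin N × Fin (D + 1))) K,
      (Q.sum fun ij q => q * bnP N D m₁ m₂ r ij) = 1 := by
  rw [← Finsupp.mem_ideal_span_range_iff_exists_finsupp]
  set I := Ideal.span (Set.range (bnP N D m₁ m₂ r)) with hI
  have hz : MvPolynomial.zeroLocus K I = ∅ := by
    rw [Set.eq_empty_iff_forall_notMem]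
    intro x hx
    rw [MvPolynomial.mem_zeroLocus_iff] at hx
    have h3 : bnF N D m₁ (fun y => x (false, y)) * bnF N D m₂ (fun y => x (true, y)) = r := by
      ext i j
      have h4 := hx _ (Ideal.subset_span (Set.mem_range_self (i, j)))
      have h5 := bnP_hom N D m₁ m₂ r (i, j) (MvPolynomial.aeval x).toRingHom
      simp only [AlgHom.toRingHom_eq_coe, RingHom.coe_coe, MvPolynomial.aeval_X] at h5
      rw [h4, MvPolynomial.aeval_C] at h5
      have h6 := (sub_eq_zero.1 h5.symm)
      simpa using h6
    rw [hm.irreducible_iff_natDegree] at hr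
    rcases hr.2 _ _ (bnF_monic N D m₁ _) (bnF_monic N D m₂ _) h3 with h | h
    · rw [bnF_natDegree] at h
      omega
    · rw [bnF_natDegree] at h
      omega
  have hrad := MvPolynomial.vanishingIdeal_zeroLocus_eq_radical (K := K) I
  rw [hz, MvPolynomial.vanishingIdeal_empty] at hrad
  have htop : I = ⊤ := Ideal.radical_eq_top.1 hrad.symm
  rw [htop]
  exact Submodule.mem_top

theorem bertini_noether {k K : Type} [Field k] [IsAlgClosed k] [Field K] [IsAlgClosed K]
    [Algebra k K] (r : Polynomial (Polynomial K)) (hm : r.Monic) (hr : Irreducible r) :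
    ∃ S : Finset K, ∀ R : Subalgebra k K, (S : Set K) ⊆ R →
      ∀ rR : Polynomial (Polynomial R),
        rR.map (Polynomial.mapRingHom (R.val : R →+* K)) = r →
        ∀ l : R →ₐ[k] k, Irreducible (rR.map (Polynomial.mapRingHom (l : R →+* k))) := by
  classical
  obtain ⟨D, hD⟩ : ∃ D : ℕ, ∀ i j, D < j → (r.coeff i).coeff j = 0 := by
    refine ⟨(Polynomial.Bivariate.swap r).natDegree, fun i j hj => ?_⟩
    rw [← bn_coeff_swap, coeff_eq_zero_of_natDegree_lt hj, coeff_zero]
  set N := r.natDegree with hN
  have hcert : ∀ m : ℕ, ∃ Q : (ℕ × ℕ) →₀ MvPolynomial (Bool × (Fin N × Fin (D + 1))) K,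
      0 < m → m < N → (Q.sum fun ij q => q * bnP N D m (N - m) r ij) = 1 := by
    intro m
    by_cases h : 0 < m ∧ m < N
    · obtain ⟨Q, hQ⟩ := bn_certificate r hm hr N D m (N - m) h.1 (by omega)
      exact ⟨Q, fun _ _ => hQ⟩
    · exact ⟨0, fun h1 h2 => absurd ⟨h1, h2⟩ h⟩
  choose Q hQ using hcert
  refine ⟨(Finset.range N).biUnion fun m => (Q m).support.biUnion fun ij => (Q m ij).coeffs, ?_⟩
  intro R hR rR hrR l
  have hinj : Function.Injective (R.val : R →+* K) := Subtype.val_injective
  have hinj' : Function.Injective (Polynomial.mapRingHom (R.val : R →+* K)) :=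
    Polynomial.map_injective _ hinj
  have hmR : rR.Monic := by
    have h1 : (rR.map (Polynomial.mapRingHom (R.val : R →+* K))).Monic := by rw [hrR]; exact hm
    exact Polynomial.monic_of_injective hinj' h1
  have hdR : rR.natDegree = N := by
    rw [hN, ← hrR, Polynomial.natDegree_map_eq_of_injective hinj']
  have hcR : ∀ i j, (((rR.coeff i).coeff j : R) : K) = (r.coeff i).coeff j := by
    intro i j
    rw [← hrR, Polynomial.coeff_map, coe_mapRingHom, Polynomial.coeff_map]
    rfl
  have hml : (rR.map (Polynomial.mapRingHom (l : R →+* k))).Monic := hmR.map _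
  have hdl : (rR.map (Polynomial.mapRingHom (l : R →+* k))).natDegree = N := by
    rw [hmR.natDegree_map, hdR]
  have hDl : ∀ i j, D < j →
      ((rR.map (Polynomial.mapRingHom (l : R →+* k))).coeff i).coeff j = 0 := by
    intro i j hj
    rw [Polynomial.coeff_map, coe_mapRingHom, Polynomial.coeff_map]
    have h1 : (rR.coeff i).coeff j = 0 := by
      apply Subtype.val_injective
      rw [hcR, hD i j hj]
      rfl
    rw [h1, map_zero]
  have hNpos : 0 < N := by
    rw [hN]
    by_contra h0
    have h1 : r = 1 := hm.natDegree_eq_zero.1 (by omega)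
    exact hr.not_isUnit (h1 ▸ isUnit_one)
  rw [hml.irreducible_iff_natDegree]
  refine ⟨fun h0 => ?_, fun f g hf hg hfg => ?_⟩
  · rw [h0, natDegree_one] at hdl
    omega
  by_contra hcon
  push Not at hcon
  obtain ⟨hf0, hg0⟩ := hcon
  have hsum : f.natDegree + g.natDegree = N := by
    rw [← hdl, ← hfg, hf.natDegree_mul hg]
  have hne : rR.map (Polynomial.mapRingHom (l : R →+* k)) ≠ 0 := hml.ne_zero
  have hfD := bn_degX hfg hne D hDl
  have hgD := bn_degX (by rw [mul_comm]; exact hfg) hne D hDl (f := g) (g := f)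
  have hfc := bnF_cover N D f hf (by omega) hfD
  have hgc := bnF_cover N D g hg (by omega) hgD
  have hm1 : 0 < f.natDegree := Nat.pos_of_ne_zero hf0
  have hm2 : f.natDegree < N := by omega
  have hcertQ := hQ f.natDegree hm1 hm2
  -- lift the certificate to `R`
  have hlift : ∀ ij ∈ (Q f.natDegree).support,
      ∃ q : MvPolynomial (Bool × (Fin N × Fin (D + 1))) R,
        MvPolynomial.map (R.val : R →+* K) q = Q f.natDegree ij := by
    intro ij hij
    have h1 : Q f.natDegree ij ∈ Set.range (MvPolynomial.map (R.val : R →+* K)) := by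
      rw [MvPolynomial.mem_range_map_iff_coeffs_subset]
      intro c hc
      have h2 : c ∈ R := by
        apply hR
        simp only [Finset.coe_biUnion, Set.mem_iUnion]
        exact ⟨f.natDegree, Finset.mem_coe.2 (Finset.mem_range.2 hm2), ij, hij, hc⟩
      exact ⟨⟨c, h2⟩, rfl⟩
    exact h1
  choose! q hq using hlift
  have hcertR : ∑ ij ∈ (Q f.natDegree).support,
      q ij * bnP N D f.natDegree (N - f.natDegree) rR ij = 1 := by
    apply MvPolynomial.map_injective (R.val : R →+* K) hinj
    rw [map_sum, map_one, ← hcertQ, Finsupp.sum]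
    refine Finset.sum_congr rfl fun ij hij => ?_
    rw [map_mul, hq ij hij]
    congr 1
    rw [bnP_hom, bnP]
    simp only [MvPolynomial.map_X, MvPolynomial.map_C]
    congr 2
    exact hcR ij.1 ij.2
  -- specialize
  set a : Bool × (Fin N × Fin (D + 1)) → k := fun x =>
    if x.1 then (g.coeff x.2.1.val).coeff x.2.2.val else (f.coeff x.2.1.val).coeff x.2.2.val with ha
  have hspec := congrArg (MvPolynomial.eval₂Hom (l : R →+* k) a) hcertR
  rw [map_sum, map_one] at hspec
  refine zero_ne_one (α := k) ?_
  rw [← hspec, eq_comm]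
  refine Finset.sum_eq_zero fun ij _ => ?_
  rw [map_mul, bnP_hom]
  have h1 : (fun x => MvPolynomial.eval₂Hom (l : R →+* k) a (MvPolynomial.X (false, x))) =
      fun x : Fin N × Fin (D + 1) => (f.coeff x.1.val).coeff x.2.val := by
    funext x
    simp [ha]
  have h2 : (fun x => MvPolynomial.eval₂Hom (l : R →+* k) a (MvPolynomial.X (true, x))) =
      fun x : Fin N × Fin (D + 1) => (g.coeff x.1.val).coeff x.2.val := by
    funext x
    simp [ha]
  rw [h1, h2, ← hfc, show N - f.natDegree = g.natDegree by omega, ← hgc, hfg,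
    Polynomial.coeff_map, coe_mapRingHom, Polynomial.coeff_map]
  simp

end

end Pool.Agent.Helper54.FP
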